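import Mathlib
import Pool.Agent.H242R3.ES.StmtsG

/-! Task ES-G4 of project H242-ES (helper925): the diamond property of the face lattice -/

set_option autoImplicit false
set_option maxHeartbeats 4000000

open Finset
open scoped Classical

namespace Pool.Agent.H925R.ES.G4

open Pool.Agent.H242R3.ES

variable {ι E : Type} [Fintype ι] [AddCommGroup E] [Module ℝ E] [FiniteDimensional ℝ E]

/-- a face of a face is a face -/
lemma face_face (V : ι → E) (S T : Set ι) (hS : Face V S) (hTS : T ⊆ S) (f : E →ₗ[ℝ] ℝ)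
    (hf : ∀ i ∈ S, 0 ≤ f (V i)) (hf0 : ∀ i ∈ S, (i ∈ T ↔ f (V i) = 0)) : Face V T := by
  obtain ⟨m, hm, hm0⟩ := hS
  set N : ℝ := ∑ i, |f (V i)| / m (V i) + 1 with hN
  have hbig : ∀ i, i ∉ S → 0 < f (V i) + N * m (V i) := by
    intro i hi
    have hpos : 0 < m (V i) := lt_of_le_of_ne (hm i) (fun h => hi ((hm0 i).2 h.symm))
    have h1 : |f (V i)| / m (V i) ≤ ∑ i, |f (V i)| / m (V i) :=
      Finset.single_le_sum (f := fun i => |f (V i)| / m (V i))
        (fun j _ => div_nonneg (abs_nonneg _) (hm j)) (Finset.mem_univ i)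
    have h2 : |f (V i)| / m (V i) + 1 ≤ N := by rw [hN]; linarith
    have h3 : (|f (V i)| / m (V i) + 1) * m (V i) ≤ N * m (V i) :=
      mul_le_mul_of_nonneg_right h2 hpos.le
    have h4 : (|f (V i)| / m (V i) + 1) * m (V i) = |f (V i)| + m (V i) := by
      field_simp
    have h5 := neg_abs_le (f (V i))
    linarith
  refine ⟨f + N • m, ?_, ?_⟩
  · intro i
    show 0 ≤ f (V i) + N * m (V i)
    by_cases hi : i ∈ S
    · rw [(hm0 i).1 hi, mul_zero, add_zero]; exact hf i hi
    · exact (hbig i hi).le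
  · intro i
    show i ∈ T ↔ f (V i) + N * m (V i) = 0
    by_cases hi : i ∈ S
    · rw [(hm0 i).1 hi, mul_zero, add_zero]; exact hf0 i hi
    · exact ⟨fun h => absurd (hTS h) hi, fun h => absurd h (hbig i hi).ne'⟩

lemma rk_lt (V : ι → E) (A C : Set ι) (hAC : A ⊆ C) (f : E →ₗ[ℝ] ℝ)
    (hf : ∀ i ∈ A, f (V i) = 0) (k : ι) (hk : k ∈ C) (hfk : f (V k) ≠ 0) :
    rk V A < rk V C := by
  unfold rk
  apply Submodule.finrank_lt_finrank_of_lt
  refine lt_of_le_of_ne (Submodule.span_mono (Set.image_mono hAC)) ?_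
  intro h
  have h1 : V k ∈ Submodule.span ℝ (V '' A) := by
    rw [h]; exact Submodule.subset_span ⟨k, hk, rfl⟩
  have h2 : Submodule.span ℝ (V '' A) ≤ LinearMap.ker f := by
    rw [Submodule.span_le]
    rintro _ ⟨i, hi, rfl⟩
    exact hf i hi
  exact hfk (h2 h1)

/-- functionals vanishing on a hyperplane are proportional -/
lemma prop (V : ι → E) (A C : Set ι) (hAC : A ⊆ C) (hrk : rk V C = rk V A + 1) (f g : E →ₗ[ℝ] ℝ)
    (hf : ∀ i ∈ A, f (V i) = 0) (hg : ∀ i ∈ A, g (V i) = 0) (k₀ : ι) (hk₀ : k₀ ∈ C)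
    (hfk : f (V k₀) ≠ 0) : ∀ k ∈ C, g (V k) * f (V k₀) = f (V k) * g (V k₀) := by
  have h1 : rk V A < rk V (insert k₀ A) :=
    rk_lt V A (insert k₀ A) (Set.subset_insert _ _) f hf k₀ (Set.mem_insert _ _) hfk
  have h2 : Submodule.span ℝ (V '' (insert k₀ A)) = Submodule.span ℝ (V '' C) := by
    apply Submodule.eq_of_le_of_finrank_le
    · exact Submodule.span_mono (Set.image_mono (Set.insert_subset hk₀ hAC))
    · change rk V C ≤ rk V (insert k₀ A)
      omega
  have h3 : Submodule.span ℝ (V '' (insert k₀ A)) ≤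
      LinearMap.ker (f (V k₀) • g - g (V k₀) • f) := by
    rw [Submodule.span_le]
    rintro _ ⟨i, hi, rfl⟩
    show f (V k₀) * g (V i) - g (V k₀) * f (V i) = 0
    rcases hi with rfl | hi
    · ring
    · rw [hf i hi, hg i hi]; ring
  intro k hk
  have h4 : V k ∈ LinearMap.ker (f (V k₀) • g - g (V k₀) • f) := by
    apply h3
    rw [h2]
    exact Submodule.subset_span ⟨k, hk, rfl⟩
  have h5 : f (V k₀) * g (V k) - g (V k₀) * f (V k) = 0 := h4
  linarith

theorem t : TaskG4 := by
  intro ι E _ _ _ _ V R S hR hS hRS hrk T hcov hTS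
  obtain ⟨-, hT, hRT, hrkT⟩ := hcov
  have hR' := hR
  have hT' := hT
  obtain ⟨l, hl, hl0⟩ := hR
  obtain ⟨τ, hτ, hτ0⟩ := hT
  -- a point of `T` outside `R`
  obtain ⟨a, haT, haR⟩ : ∃ a ∈ T, a ∉ R := Set.exists_of_ssubset hRT
  have hla : 0 < l (V a) := lt_of_le_of_ne (hl a) (fun h => haR ((hl0 a).2 h.symm))
  have hτa : τ (V a) = 0 := (hτ0 a).1 haT
  -- a point of `S` outside `T`
  have hST : ¬ S ⊆ T := by
    intro h
    have : S = T := Set.Subset.antisymm h hTS
    rw [this] at hrk
    omega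
  obtain ⟨b, hbS, hbT⟩ : ∃ b ∈ S, b ∉ T := Set.not_subset.1 hST
  have hbR : b ∉ R := fun h => hbT (hRT.1 h)
  have hlb : 0 < l (V b) := lt_of_le_of_ne (hl b) (fun h => hbR ((hl0 b).2 h.symm))
  have hτb : 0 < τ (V b) := lt_of_le_of_ne (hτ b) (fun h => hbT ((hτ0 b).2 h.symm))
  have hlR : ∀ i ∈ R, l (V i) = 0 := fun i hi => (hl0 i).1 hi
  have hτR : ∀ i ∈ R, τ (V i) = 0 := fun i hi => (hτ0 i).1 (hRT.1 hi)
  -- the maximal ratio
  obtain ⟨m, hm, hmax⟩ := Finset.exists_max_image
    (Finset.univ.filter fun k => k ∈ S ∧ k ∉ R) (fun k => τ (V k) / l (V k))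
    ⟨b, by simp [hbS, hbR]⟩
  simp only [Finset.mem_filter, Finset.mem_univ, true_and] at hm hmax
  obtain ⟨hmS, hmR⟩ := hm
  have hlm : 0 < l (V m) := lt_of_le_of_ne (hl m) (fun h => hmR ((hl0 m).2 h.symm))
  have hmax' : ∀ k ∈ S, l (V m) * τ (V k) ≤ τ (V m) * l (V k) := by
    intro k hk
    by_cases hkR : k ∈ R
    · rw [hlR k hkR, hτR k hkR, mul_zero, mul_zero]
    · have hlk : 0 < l (V k) := lt_of_le_of_ne (hl k) (fun h => hkR ((hl0 k).2 h.symm))
      have h := hmax k ⟨hk, hkR⟩
      rw [div_le_div_iff₀ hlk hlm] at h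
      linarith
  have hτm : 0 < τ (V m) := by
    have h := hmax' b hbS
    have h1 : 0 < l (V m) * τ (V b) := mul_pos hlm hτb
    have h2 : 0 < τ (V m) * l (V b) := h1.trans_le h
    exact pos_of_mul_pos_left h2 hlb.le
  -- the other cover
  set Ts : Set ι := {k | k ∈ S ∧ l (V m) * τ (V k) = τ (V m) * l (V k)} with hTs
  have hTsS : Ts ⊆ S := fun k hk => hk.1
  have hRTs : R ⊆ Ts := fun k hk => ⟨hRS.1 hk, by rw [hlR k hk, hτR k hk, mul_zero, mul_zero]⟩
  have hmTs : m ∈ Ts := ⟨hmS, mul_comm _ _⟩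
  have haTs : a ∉ Ts := by
    intro h
    have h1 := h.2
    rw [hτa, mul_zero] at h1
    exact (mul_pos hτm hla).ne h1
  set f : E →ₗ[ℝ] ℝ := τ (V m) • l - l (V m) • τ with hf
  have hfv : ∀ k, f (V k) = τ (V m) * l (V k) - l (V m) * τ (V k) := fun k => rfl
  have hTsF : Face V Ts := by
    refine face_face V S Ts hS hTsS f ?_ ?_
    · intro i hi
      rw [hfv]
      linarith [hmax' i hi]
    · intro i hi
      rw [hfv]
      constructor
      · intro h; linarith [h.2]
      · intro h; exact ⟨hi, by linarith⟩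
  have hrkTs : rk V Ts = rk V R + 1 := by
    have h1 : rk V R < rk V Ts := rk_lt V R Ts hRTs l hlR m hmTs hlm.ne'
    have h2 : rk V Ts < rk V S := by
      refine rk_lt V Ts S hTsS f ?_ a (hTS haT) ?_
      · intro i hi; rw [hfv]; linarith [hi.2]
      · rw [hfv, hτa, mul_zero, sub_zero]; exact (mul_pos hτm hla).ne'
    omega
  refine ⟨Ts, ⟨⟨⟨hR', hTsF, ⟨hRTs, fun h => hmR (h hmTs)⟩, hrkTs⟩, hTsS⟩, ?_⟩, ?_⟩
  · intro h
    rw [h] at haTs
    exact haTs haT
  -- uniqueness
  · rintro T' ⟨⟨⟨-, hT'F, hRT', hrkT'⟩, hT'S⟩, hne⟩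
    obtain ⟨σ, hσ, hσ0⟩ := hT'F
    obtain ⟨k', hk'T', hk'R⟩ : ∃ a ∈ T', a ∉ R := Set.exists_of_ssubset hRT'
    have hlk' : 0 < l (V k') := lt_of_le_of_ne (hl k') (fun h => hk'R ((hl0 k').2 h.symm))
    have hST' : ¬ S ⊆ T' := by
      intro h
      have : S = T' := Set.Subset.antisymm h hT'S
      rw [this] at hrk
      omega
    obtain ⟨s, hsS, hsT'⟩ : ∃ b ∈ S, b ∉ T' := Set.not_subset.1 hST'
    have hσs : 0 < σ (V s) := lt_of_le_of_ne (hσ s) (fun h => hsT' ((hσ0 s).2 h.symm))
    set g : E →ₗ[ℝ] ℝ := l (V k') • τ - τ (V k') • l with hg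
    have hgv : ∀ k, g (V k) = l (V k') * τ (V k) - τ (V k') * l (V k) := fun k => rfl
    have hgT' : ∀ i ∈ T', g (V i) = 0 := by
      intro i hi
      have h := prop V R T' hRT'.1 hrkT' l τ hlR hτR k' hk'T' hlk'.ne' i hi
      rw [hgv]
      linarith
    have hprop : ∀ k ∈ S, g (V k) * σ (V s) = σ (V k) * g (V s) :=
      prop V T' S hT'S (by omega) σ g (fun i hi => (hσ0 i).1 hi) hgT' s hsS hσs.ne'
    rcases lt_trichotomy (g (V s)) 0 with hgs | hgs | hgs
    · -- the good case
      have hneg : ∀ k ∈ S, g (V k) ≤ 0 := by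
        intro k hk
        have h1 := hprop k hk
        have h2 : σ (V k) * g (V s) ≤ 0 := mul_nonpos_of_nonneg_of_nonpos (hσ k) hgs.le
        rw [← h1] at h2
        by_contra h3
        push Not at h3
        exact absurd (mul_pos h3 hσs) (not_lt.2 h2)
      have hzero : ∀ k ∈ S, (k ∈ T' ↔ g (V k) = 0) := by
        intro k hk
        constructor
        · intro h; exact hgT' k h
        · intro h
          have h1 := hprop k hk
          rw [h, zero_mul] at h1
          rcases mul_eq_zero.1 h1.symm with h2 | h2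
          · exact (hσ0 k).2 h2
          · exact absurd h2 hgs.ne
      have e1 := hneg m hmS
      rw [hgv] at e1
      have e2 := hmax' k' (hT'S hk'T')
      have e3 : l (V k') * τ (V m) = τ (V k') * l (V m) := by linarith
      ext k
      constructor
      · intro hk
        have hkS := hT'S hk
        refine ⟨hkS, ?_⟩
        have h1 := (hzero k hkS).1 hk
        rw [hgv] at h1
        have h2 : l (V k') * (l (V m) * τ (V k) - τ (V m) * l (V k)) = 0 := by
          linear_combination l (V m) * h1 - l (V k) * e3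
        rcases mul_eq_zero.1 h2 with h3 | h3
        · exact absurd h3 hlk'.ne'
        · linarith
      · rintro ⟨hkS, hk⟩
        rw [hzero k hkS, hgv]
        have h2 : l (V m) * (l (V k') * τ (V k) - τ (V k') * l (V k)) = 0 := by
          linear_combination l (V k') * hk + l (V k) * e3
        rcases mul_eq_zero.1 h2 with h3 | h3
        · exact absurd h3 hlm.ne'
        · exact h3
    · -- `g` vanishes on `S`
      exfalso
      have hz : ∀ k ∈ S, g (V k) = 0 := by
        intro k hk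
        have h1 := hprop k hk
        rw [hgs, mul_zero] at h1
        rcases mul_eq_zero.1 h1 with h2 | h2
        · exact h2
        · exact absurd h2 hσs.ne'
      have h1 := hz a (hTS haT)
      rw [hgv, hτa, mul_zero, zero_sub, neg_eq_zero] at h1
      have h2 : τ (V k') = 0 := by
        rcases mul_eq_zero.1 h1 with h3 | h3
        · exact h3
        · exact absurd h3 hla.ne'
      have h3 := hz b hbS
      rw [hgv, h2, zero_mul, sub_zero] at h3
      exact (mul_pos hlk' hτb).ne' h3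
    · -- `g` is nonnegative on `S`: then `T' = T`
      exfalso
      apply hne
      have hpos : ∀ k ∈ S, 0 ≤ g (V k) := by
        intro k hk
        have h1 := hprop k hk
        have h2 : 0 ≤ σ (V k) * g (V s) := mul_nonneg (hσ k) hgs.le
        rw [← h1] at h2
        by_contra h3
        push Not at h3
        exact absurd (mul_neg_of_neg_of_pos h3 hσs) (not_lt.2 h2)
      have h1 := hpos a (hTS haT)
      rw [hgv, hτa, mul_zero, zero_sub] at h1
      have h2 : τ (V k') = 0 := by
        have h3 : τ (V k') * l (V a) ≤ 0 := by linarith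
        have h4 : 0 ≤ τ (V k') := hτ k'
        have h5 : τ (V k') * l (V a) = 0 := le_antisymm h3 (mul_nonneg h4 hla.le)
        rcases mul_eq_zero.1 h5 with h6 | h6
        · exact h6
        · exact absurd h6 hla.ne'
      have hgv' : ∀ k, g (V k) = l (V k') * τ (V k) := by
        intro k; rw [hgv, h2, zero_mul, sub_zero]
      ext k
      constructor
      · intro hk
        have h3 := hgT' k hk
        rw [hgv'] at h3
        rcases mul_eq_zero.1 h3 with h4 | h4
        · exact absurd h4 hlk'.ne'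
        · exact (hτ0 k).2 h4
      · intro hk
        have hkS := hTS hk
        have h3 := hprop k hkS
        rw [hgv', (hτ0 k).1 hk, mul_zero, zero_mul] at h3
        rcases mul_eq_zero.1 h3.symm with h4 | h4
        · exact (hσ0 k).2 h4
        · exact absurd h4 hgs.ne'

end Pool.Agent.H925R.ES.G4
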